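import Pool.Agent.Helper95.BG.Goals

/-!
# Boolean grammars in the well-founded semantics are local
-/

namespace Pool.Agent.Helper60.BG.PkWF

open Pool.Agent.Helper95.BG

section

variable {T : Type} {G : BooleanGrammar T}

theorem mem_str_nil (S : G.N → Language T) (w : List T) : w ∈ G.str S [] ↔ w = [] := by
  simp [BooleanGrammar.str]

theorem mem_str_single (S : G.N → Language T) (s : T ⊕ G.N) (w : List T) :
    w ∈ G.str S [s] ↔ w ∈ (Sum.elim (fun a => ({[a]} : Language T)) S s : Language T) := by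
  simp [BooleanGrammar.str]

theorem mem_str_cons (S : G.N → Language T) (s : T ⊕ G.N) (τ : List (T ⊕ G.N)) (w : List T) :
    w ∈ G.str S (s :: τ) ↔ ∃ u v, u ∈ G.str S [s] ∧ v ∈ G.str S τ ∧ u ++ v = w := by
  have h : G.str S (s :: τ) = (Sum.elim (fun a => ({[a]} : Language T)) S s : Language T) *
      G.str S τ := by
    simp [BooleanGrammar.str]
  rw [h, Language.mem_mul]
  constructor
  · rintro ⟨a, ha, b, hb, hab⟩
    exact ⟨a, b, (mem_str_single S s a).2 ha, hb, hab⟩
  · rintro ⟨a, b, ha, hb, hab⟩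
    exact ⟨a, (mem_str_single S s a).1 ha, b, hb, hab⟩

theorem mem_str_inl (S : G.N → Language T) (a : T) (w : List T) :
    w ∈ G.str S [Sum.inl a] ↔ w = [a] := by
  rw [mem_str_single]
  rfl

theorem mem_str_inr (S : G.N → Language T) (A : G.N) (w : List T) :
    w ∈ G.str S [Sum.inr A] ↔ w ∈ S A := by
  rw [mem_str_single]
  rfl

/-- The set of factors. -/
theorem str_congr {S S' : G.N → Language T} {w : List T}
    (h : ∀ u, u <:+: w → ∀ A, u ∈ S A ↔ u ∈ S' A) :
    ∀ α : List (T ⊕ G.N), ∀ u, u <:+: w → (u ∈ G.str S α ↔ u ∈ G.str S' α) := by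
  intro α
  induction α with
  | nil =>
    intro u _
    rw [mem_str_nil, mem_str_nil]
  | cons s τ ih =>
    intro u hu
    rw [mem_str_cons, mem_str_cons]
    have h1 : ∀ x y, x ++ y = u → (x ∈ G.str S [s] ↔ x ∈ G.str S' [s]) ∧
        (y ∈ G.str S τ ↔ y ∈ G.str S' τ) := by
      intro x y hxy
      have hx : x <:+: w := List.IsInfix.trans ⟨[], y, by simpa using hxy⟩ hu
      have hy : y <:+: w := List.IsInfix.trans ⟨x, [], by simpa using hxy⟩ hu
      refine ⟨?_, ih y hy⟩
      cases s with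
      | inl a => rw [mem_str_inl, mem_str_inl]
      | inr A =>
        rw [mem_str_inr, mem_str_inr]
        exact h x hx A
    constructor
    · rintro ⟨x, y, hx, hy, hxy⟩
      exact ⟨x, y, (h1 x y hxy).1.1 hx, (h1 x y hxy).2.1 hy, hxy⟩
    · rintro ⟨x, y, hx, hy, hxy⟩
      exact ⟨x, y, (h1 x y hxy).1.2 hx, (h1 x y hxy).2.2 hy, hxy⟩

theorem str_mono {S S' : G.N → Language T} (h : ∀ A, ∀ u ∈ S A, u ∈ S' A) :
    ∀ α : List (T ⊕ G.N), ∀ u, u ∈ G.str S α → u ∈ G.str S' α := by
  intro α
  induction α with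
  | nil =>
    intro u hu
    rw [mem_str_nil] at *
    exact hu
  | cons s τ ih =>
    intro u hu
    rw [mem_str_cons] at *
    obtain ⟨x, y, hx, hy, hxy⟩ := hu
    refine ⟨x, y, ?_, ih y hy, hxy⟩
    cases s with
    | inl a =>
      rw [mem_str_inl] at *
      exact hx
    | inr A =>
      rw [mem_str_inr] at *
      exact h A x hx

theorem rhs_mono {I I' S S' : G.N → Language T} (hI : ∀ A, ∀ u ∈ I' A, u ∈ I A)
    (h : ∀ A, ∀ u ∈ S A, u ∈ S' A) (A : G.N) (u : List T) (hu : u ∈ G.rhs I S A) :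
    u ∈ G.rhs I' S' A := by
  obtain ⟨r, hr, h1, h2⟩ := hu
  exact ⟨r, hr, fun α hα => str_mono h α u (h1 α hα), fun β hβ hc => h2 β hβ (str_mono hI β u hc)⟩

theorem least_le {I S : G.N → Language T} (h : ∀ B, ∀ u ∈ G.rhs I S B, u ∈ S B) (A : G.N)
    (u : List T) (hu : u ∈ G.least I A) : u ∈ S A := hu S h

theorem rhs_least {I : G.N → Language T} (A : G.N) (u : List T)
    (hu : u ∈ G.rhs I (G.least I) A) : u ∈ G.least I A := by
  intro S hS
  exact hS A u (rhs_mono (fun _ _ h => h) (fun B x hx => least_le hS B x hx) A u hu)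

theorem least_rhs {I : G.N → Language T} (A : G.N) (u : List T)
    (hu : u ∈ G.least I A) : u ∈ G.rhs I (G.least I) A := by
  refine hu (G.rhs I (G.least I)) fun B x hx => ?_
  exact rhs_mono (fun _ _ h => h) (fun C y hy => rhs_least C y hy) B x hx

theorem least_anti {I I' : G.N → Language T} (h : ∀ A, ∀ u ∈ I A, u ∈ I' A) (A : G.N)
    (u : List T) (hu : u ∈ G.least I' A) : u ∈ G.least I A := by
  refine hu (G.least I) fun B x hx => rhs_least B x ?_
  exact rhs_mono h (fun _ _ h => h) B x hx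

/-- `least` is local. -/
theorem least_local {I I' : G.N → Language T} {w : List T}
    (h : ∀ u, u <:+: w → ∀ A, u ∈ I A ↔ u ∈ I' A) (A : G.N) (hw : w ∈ G.least I A) :
    w ∈ G.least I' A := by
  have key := hw (fun B => {u | u <:+: w → u ∈ G.least I' B}) ?_
  · exact key (List.infix_refl w)
  · rintro B u ⟨r, hr, h1, h2⟩ huw
    refine rhs_least B u ⟨r, hr, fun α hα => ?_, fun β hβ hc => ?_⟩
    · refine (str_congr (w := u) (fun x hx C => ?_) α u (List.infix_refl u)).1 (h1 α hα)
      exact ⟨fun h3 => h3 (hx.trans huw), fun h3 _ => h3⟩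
    · exact h2 β hβ ((str_congr (w := w) h β u huw).2 hc)

theorem least_local_iff {I I' : G.N → Language T} {w : List T}
    (h : ∀ u, u <:+: w → ∀ A, u ∈ I A ↔ u ∈ I' A) :
    ∀ u, u <:+: w → ∀ A, u ∈ G.least I A ↔ u ∈ G.least I' A := by
  intro u hu A
  exact ⟨least_local (fun x hx => h x (hx.trans hu)) A,
    least_local (fun x hx B => (h x (hx.trans hu) B).symm) A⟩

/-- One-sided transfer of the values of the factors. -/
def Tr (S : G.N → Language T) (w : List T) (S' : G.N → Language T) (w' : List T) : Prop :=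
  ∀ u v : List T, u ≠ [] → v ≠ [] → u ++ v = w →
    ∃ u' v' : List T, u' ≠ [] ∧ v' ≠ [] ∧ u' ++ v' = w' ∧ ∀ σ ∈ G.Sub,
      (u ∈ G.str S σ → u' ∈ G.str S' σ) ∧ (v ∈ G.str S σ → v' ∈ G.str S' σ)

theorem nil_str {S S' : G.N → Language T} (h : ∀ A, [] ∈ S A → [] ∈ S' A) :
    ∀ α : List (T ⊕ G.N), [] ∈ G.str S α → [] ∈ G.str S' α := by
  intro α
  induction α with
  | nil =>
    intro _
    rw [mem_str_nil]
  | cons s τ ih =>
    intro hu
    rw [mem_str_cons] at *
    obtain ⟨x, y, hx, hy, hxy⟩ := hu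
    obtain ⟨rfl, rfl⟩ := List.append_eq_nil_iff.1 hxy
    refine ⟨[], [], ?_, ih hy, rfl⟩
    cases s with
    | inl a =>
      rw [mem_str_inl] at *
      exact hx
    | inr A =>
      rw [mem_str_inr] at *
      exact h A hx

theorem str_tr {S S' : G.N → Language T} {w w' : List T} (hw : 2 ≤ w.length)
    (ht : Tr S w S' w') (h0 : ∀ A, [] ∈ S A → [] ∈ S' A) (h1 : ∀ A, w ∈ S A → w' ∈ S' A)
    {A : G.N} {r : List (List (T ⊕ G.N)) × List (List (T ⊕ G.N))} (hr : r ∈ G.rules A)
    {α : List (T ⊕ G.N)} (hα : α ∈ r.1 ++ r.2) :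
    ∀ σ : List (T ⊕ G.N), σ <:+ α → w ∈ G.str S σ → w' ∈ G.str S' σ := by
  intro σ
  induction σ with
  | nil =>
    intro _ h
    rw [mem_str_nil] at h
    rw [h] at hw
    simp at hw
  | cons s τ ih =>
    intro hσ h
    have hτ : τ <:+ α := (List.suffix_cons s τ).trans hσ
    have hs : s ∈ α := hσ.subset (List.mem_cons_self)
    rw [mem_str_cons] at h
    obtain ⟨x, y, hx, hy, hxy⟩ := h
    by_cases hx0 : x = []
    · subst hx0
      rw [List.nil_append] at hxy
      subst hxy
      rw [mem_str_cons]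
      exact ⟨[], w', nil_str h0 [s] hx, ih hτ hy, List.nil_append _⟩
    by_cases hy0 : y = []
    · subst hy0
      rw [List.append_nil] at hxy
      subst hxy
      rw [mem_str_cons]
      refine ⟨w', [], ?_, nil_str h0 τ hy, List.append_nil _⟩
      cases s with
      | inl a =>
        rw [mem_str_inl] at hx
        rw [hx] at hw
        simp at hw
      | inr B =>
        rw [mem_str_inr] at *
        exact h1 B hx
    · obtain ⟨x', y', -, -, hxy', h2⟩ := ht x y hx0 hy0 hxy
      rw [mem_str_cons]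
      exact ⟨x', y', (h2 [s] (Or.inr (Or.inl ⟨s, rfl, A, r, hr, α, hα, hs⟩))).1 hx,
        (h2 τ (Or.inl ⟨A, r, hr, α, hα, hτ⟩)).2 hy, hxy'⟩

/-- Transfer of the least solution. -/
theorem transfer {I I' : G.N → Language T} {w w' : List T} (hw : 2 ≤ w.length)
    (hw' : 2 ≤ w'.length) (ha : Tr (G.least I) w (G.least I') w') (ha' : Tr I' w' I w)
    (hb : ∀ A, [] ∈ G.least I A → [] ∈ G.least I' A) (hb' : ∀ A, [] ∈ I' A → [] ∈ I A)
    (hc : ∀ A, w' ∈ I' A → w ∈ I A) (A : G.N) (h : w ∈ G.least I A) : w' ∈ G.least I' A := by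
  have key := h (fun B => {u | u ∈ G.least I B ∧ (u = w → w' ∈ G.least I' B)}) ?_
  · exact key.2 rfl
  · rintro B u ⟨r, hr, h1, h2⟩
    refine ⟨rhs_least B u ⟨r, hr, fun α hα => ?_, h2⟩, ?_⟩
    · exact str_mono (fun C x hx => hx.1) α u (h1 α hα)
    · intro huw
      subst huw
      refine rhs_least B w' ⟨r, hr, fun α hα => ?_, fun β hβ hcon => ?_⟩
      · refine str_tr hw ?_ ?_ ?_ hr (List.mem_append_left _ hα) α (List.suffix_refl α) (h1 α hα)
        · intro x y hx hy hxy
          obtain ⟨x', y', hx', hy', hxy', h3⟩ := ha x y hx hy hxy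
          refine ⟨x', y', hx', hy', hxy', fun σ hσ => ⟨fun h4 => (h3 σ hσ).1 ?_,
            fun h4 => (h3 σ hσ).2 ?_⟩⟩
          · exact str_mono (fun C z hz => hz.1) σ x h4
          · exact str_mono (fun C z hz => hz.1) σ y h4
        · intro C hC
          exact hb C hC.1
        · intro C hC
          exact hC.2 rfl
      · exact h2 β hβ (str_tr hw' ha' hb' hc hr (List.mem_append_right _ hβ) β
          (List.suffix_refl β) hcon)

theorem wf_le {I : G.N → Language T} (h : ∀ B, ∀ u ∈ G.least (G.least I) B, u ∈ I B) (A : G.N)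
    (u : List T) (hu : u ∈ G.wellFounded A) : u ∈ I A := hu I h

theorem ll_mono {I I' : G.N → Language T} (h : ∀ A, ∀ u ∈ I A, u ∈ I' A) (A : G.N)
    (u : List T) (hu : u ∈ G.least (G.least I) A) : u ∈ G.least (G.least I') A :=
  least_anti (fun B x hx => least_anti h B x hx) A u hu

theorem wf_fix1 (A : G.N) (u : List T) (hu : u ∈ G.least (G.least G.wellFounded) A) :
    u ∈ G.wellFounded A := by
  intro I hI
  exact hI A u (ll_mono (fun B x hx => wf_le hI B x hx) A u hu)

theorem wf_fix2 (A : G.N) (u : List T) (hu : u ∈ G.wellFounded A) :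
    u ∈ G.least (G.least G.wellFounded) A := by
  refine hu (G.least (G.least G.wellFounded)) fun B x hx => ?_
  exact ll_mono (fun C y hy => wf_fix1 C y hy) B x hx

theorem length_lt_left {u v w : List T} (hv : v ≠ []) (h : u ++ v = w) : u.length < w.length := by
  rw [← h, List.length_append]
  have := List.length_pos_iff.2 hv
  omega

theorem length_lt_right {u v w : List T} (hu : u ≠ []) (h : u ++ v = w) : v.length < w.length := by
  rw [← h, List.length_append]
  have := List.length_pos_iff.2 hu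
  omega

/-- The pair of solutions. -/
def SS (G : BooleanGrammar T) (i : Bool) : G.N → Language T :=
  if i then G.least G.wellFounded else G.wellFounded

theorem tr_of {S₁ S₂ : G.N → Language T} {i : Bool} {w w' : List T}
    (hs : G.Same (SS G) w w')
    (h1 : ∀ u, u <:+: w → u.length < w.length → ∀ A, u ∈ S₁ A ↔ u ∈ SS G i A)
    (h2 : ∀ u, u <:+: w' → u.length < w'.length → ∀ A, u ∈ S₂ A ↔ u ∈ SS G i A) :
    Tr S₁ w S₂ w' := by
  intro u v hu hv huv
  obtain ⟨u', v', hu', hv', huv', h3⟩ := hs.2 u v hu hv huv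
  refine ⟨u', v', hu', hv', huv', fun σ hσ => ?_⟩
  have huw : u <:+: w := ⟨[], v, by simpa using huv⟩
  have hvw : v <:+: w := ⟨u, [], by simpa using huv⟩
  have huw' : u' <:+: w' := ⟨[], v', by simpa using huv'⟩
  have hvw' : v' <:+: w' := ⟨u', [], by simpa using huv'⟩
  have l1 := length_lt_left hv huv
  have l2 := length_lt_right hu huv
  have l1' := length_lt_left hv' huv'
  have l2' := length_lt_right hu' huv'
  constructor
  · intro h
    have e1 := (str_congr (w := u) (fun x hx => h1 x (hx.trans huw)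
      (lt_of_le_of_lt hx.length_le l1)) σ u (List.infix_refl u)).1 h
    have e2 := ((h3 i σ hσ).1).1 e1
    exact (str_congr (w := u') (fun x hx => h2 x (hx.trans huw')
      (lt_of_le_of_lt hx.length_le l1')) σ u' (List.infix_refl u')).2 e2
  · intro h
    have e1 := (str_congr (w := v) (fun x hx => h1 x (hx.trans hvw)
      (lt_of_le_of_lt hx.length_le l2)) σ v (List.infix_refl v)).1 h
    have e2 := ((h3 i σ hσ).2).1 e1
    exact (str_congr (w := v') (fun x hx => h2 x (hx.trans hvw')
      (lt_of_le_of_lt hx.length_le l2')) σ v' (List.infix_refl v')).2 e2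

theorem wf_one {w w' : List T} (hs : G.Same (SS G) w w') (hs' : G.Same (SS G) w' w) (A : G.N)
    (h : w ∈ G.wellFounded A) : w' ∈ G.wellFounded A := by
  have hw := hs.1
  have hw' := hs'.1
  have hnil : ([] : List T).length < w.length := by simp; omega
  have hnil' : ([] : List T).length < w'.length := by simp; omega
  have hnw : ([] : List T) <:+: w := ⟨[], w, by simp⟩
  set I : G.N → Language T := fun B => {u | u <:+: w →
    ((u = w ∧ w' ∈ G.wellFounded B) ∨ (u ≠ w ∧ u ∈ G.wellFounded B))} with hI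
  have a1 : ∀ u, u <:+: w → u.length < w.length → ∀ B, u ∈ I B ↔ u ∈ G.wellFounded B := by
    intro u hu hlt B
    have hne : u ≠ w := fun he => by rw [he] at hlt; exact lt_irrefl _ hlt
    constructor
    · intro h1
      rcases h1 hu with h2 | h2
      · exact absurd h2.1 hne
      · exact h2.2
    · intro h1 _
      exact Or.inr ⟨hne, h1⟩
  have a2 : ∀ u, u <:+: w → u.length < w.length → ∀ B, u ∈ G.least I B ↔
      u ∈ G.least G.wellFounded B := by
    intro u hu hlt B
    exact least_local_iff (w := u) (fun x hx => a1 x (hx.trans hu)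
      (lt_of_le_of_lt hx.length_le hlt)) u (List.infix_refl u) B
  have a3 : ∀ u, u <:+: w → u.length < w.length → ∀ B, u ∈ G.least (G.least I) B ↔
      u ∈ G.wellFounded B := by
    intro u hu hlt B
    refine (least_local_iff (w := u) (fun x hx => a2 x (hx.trans hu)
      (lt_of_le_of_lt hx.length_le hlt)) u (List.infix_refl u) B).trans ?_
    exact ⟨wf_fix1 B u, wf_fix2 B u⟩
  have b1 : ∀ B, w ∈ I B ↔ w' ∈ G.wellFounded B := by
    intro B
    constructor
    · intro h1
      rcases h1 (List.infix_refl w) with h2 | h2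
      · exact h2.2
      · exact absurd rfl h2.1
    · intro h1 _
      exact Or.inl ⟨rfl, h1⟩
  have tW : ∀ u, u <:+: w' → u.length < w'.length → ∀ B, u ∈ G.wellFounded B ↔
      u ∈ SS G false B := fun u _ _ B => Iff.rfl
  have tV : ∀ u, u <:+: w' → u.length < w'.length → ∀ B, u ∈ G.least G.wellFounded B ↔
      u ∈ SS G true B := fun u _ _ B => Iff.rfl
  have b2 : ∀ B, w' ∈ G.least G.wellFounded B → w ∈ G.least I B := by
    intro B
    refine transfer hw' hw ?_ ?_ ?_ ?_ ?_ B
    · exact tr_of (i := true) hs' tV a2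
    · exact tr_of (i := false) hs a1 tW
    · intro C hC
      exact (a2 [] hnw hnil C).2 hC
    · intro C hC
      exact (a1 [] hnw hnil C).1 hC
    · intro C hC
      exact (b1 C).1 hC
  have b3 : ∀ B, w ∈ G.least (G.least I) B → w' ∈ G.wellFounded B := by
    intro B hB
    refine wf_fix1 B w' (transfer hw hw' ?_ ?_ ?_ ?_ ?_ B hB)
    · refine tr_of (i := false) hs a3 fun u hu hlt C => ?_
      exact ⟨wf_fix1 C u, wf_fix2 C u⟩
    · exact tr_of (i := true) hs' tV a2
    · intro C hC
      exact wf_fix2 C [] ((a3 [] hnw hnil C).1 hC)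
    · intro C hC
      exact (a2 [] hnw hnil C).2 hC
    · exact b2
  refine (b1 A).1 (wf_le (I := I) (fun B u hu => ?_) A w h)
  intro huw
  by_cases he : u = w
  · subst he
    exact Or.inl ⟨rfl, b3 B hu⟩
  · refine Or.inr ⟨he, (a3 u huw ?_ B).1 hu⟩
    refine lt_of_le_of_ne huw.length_le fun hl => he (huw.eq_of_length hl)

theorem v_one {w w' : List T} (hs : G.Same (SS G) w w') (hs' : G.Same (SS G) w' w) (A : G.N)
    (h : w ∈ G.least G.wellFounded A) : w' ∈ G.least G.wellFounded A := by
  have tV : ∀ x u : List T, u <:+: x → u.length < x.length → ∀ B, u ∈ G.least G.wellFounded B ↔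
      u ∈ SS G true B := fun x u _ _ B => Iff.rfl
  have tW : ∀ x u : List T, u <:+: x → u.length < x.length → ∀ B, u ∈ G.wellFounded B ↔
      u ∈ SS G false B := fun x u _ _ B => Iff.rfl
  exact transfer hs.1 hs'.1 (tr_of (i := true) hs (tV w) (tV w'))
    (tr_of (i := false) hs' (tW w') (tW w)) (fun _ h => h) (fun _ h => h)
    (fun B hB => wf_one hs' hs B hB) A h

end

theorem thm (str : G_STR) : G_WF := by
  intro T G
  have key := str T G Bool (SS G) ?_ false G.start
  · exact key
  · intro w w' hs hs' i A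
    cases i with
    | false => exact ⟨wf_one hs hs' A, wf_one hs' hs A⟩
    | true => exact ⟨v_one hs hs' A, v_one hs' hs A⟩

end Pool.Agent.Helper60.BG.PkWF
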